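import Pool.Agent.Helper72.PT.St

/-! PT, module Rec: the chain recursion -/

open Finset

namespace Pool.Agent.Helper62.PT.Rec

open Pool.HW Pool.PL Pool.PT

open Classical in
/-- the functions of the chain, indexed by the number of steps from the start `a0` -/
noncomputable def RR (S : Sys (List Dir)) (g0 k0 : ℝ) (ℓ a0 : ℕ) : ℕ → List (List Dir) → ℝ
  | 0, _ => g0
  | n + 1, L => RR S g0 k0 ℓ a0 n L +
      ∑ y ∈ range (a0 + n + 1 + 1), ∑ g ∈ range (a0 + n + 1 - y + 1), S.qq k0 ℓ g *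
        ∑ q ∈ S.LH (a0 + n + 1 - y - g) ×ˢ S.LH y, S.wt q.1 * S.wt q.2 *
          ((if S.GoodPM (S.ht q.1) L.reverse ([Dir.N] :: q.1) then 1 else 0) *
            RR S g0 k0 ℓ a0 n q.2) +
      S.bad k0 ℓ (a0 + n + 1) * RR S g0 k0 ℓ a0 n []

theorem RR_nonneg (S : Sys (List Dir)) {g0 k0 : ℝ} (hg : 0 ≤ g0) (hk : 0 < k0) (ℓ a0 n : ℕ) :
    ∀ L, 0 ≤ RR S g0 k0 ℓ a0 n L := by
  classical
  induction n with
  | zero => intro L; rw [RR]; exact hg
  | succ n ih =>
    intro L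
    rw [RR]
    refine add_nonneg (add_nonneg (ih L) ?_) (mul_nonneg (S.bad_nonneg _ _ _) (ih []))
    refine sum_nonneg fun y _ => sum_nonneg fun g _ => mul_nonneg (S.qq_nonneg hk.le _ _) ?_
    refine sum_nonneg fun q _ => mul_nonneg (mul_nonneg (S.wt_nonneg _) (S.wt_nonneg _)) ?_
    refine mul_nonneg ?_ (ih q.2)
    split_ifs <;> norm_num

theorem GoodPM_nil {α : Type} (S : Sys α) (m : ℕ) (L' : List α) : S.GoodPM m [] L' := by
  left
  intro K K' hK _ _ h1 _
  rw [List.prefix_nil.1 hK] at h1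
  simp at h1

/-- every list of the system of height `h` has its reverse in the same set -/
theorem reverse_mem_LH {α : Type} [DecidableEq α] (S : Sys α) {h : ℕ} {L : List α}
    (hL : L ∈ S.LH h) : L.reverse ∈ S.LH h := by
  rw [S.mem_LH] at hL ⊢
  exact ⟨fun p hp => hL.1 p (List.mem_reverse.1 hp), by rw [S.ht_reverse]; exact hL.2⟩

open Classical in
theorem tp_eq {α : Type} [DecidableEq α] (S : Sys α) (e : α) (y x : ℕ) :
    S.tp e y x = ∑ L ∈ S.LH y, ∑ L1 ∈ S.LH x, S.wt L * S.wt L1 *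
      (if S.GoodPM (S.ht L1) L.reverse (e :: L1) then 1 else 0) := by
  rw [Sys.tp, sum_filter, sum_product]
  have h1 : ∑ L ∈ S.LH y, ∑ L1 ∈ S.LH x,
      (if S.GoodPM x L (e :: L1) then S.wt L * S.wt L1 else 0) =
      ∑ L ∈ S.LH y, ∑ L1 ∈ S.LH x,
      (if S.GoodPM x L.reverse (e :: L1) then S.wt L.reverse * S.wt L1 else 0) := by
    refine sum_nbij' List.reverse List.reverse (fun L hL => reverse_mem_LH S hL)
      (fun L hL => reverse_mem_LH S hL) (fun L _ => List.reverse_reverse L)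
      (fun L _ => List.reverse_reverse L) ?_
    intro L _
    rw [List.reverse_reverse]
  refine h1.trans (sum_congr rfl fun L _ => sum_congr rfl fun L1 hL1 => ?_)
  rw [(S.mem_LH.1 hL1).2, S.wt_reverse]
  split_ifs <;> simp

open Classical in
theorem block_eq {α : Type} [DecidableEq α] (S : Sys α) (e : α) (y x y' : ℕ) (R : List α → ℝ) :
    ∑ L ∈ S.LH y, S.wt L * (∑ q ∈ S.LH x ×ˢ S.LH y', S.wt q.1 * S.wt q.2 *
      ((if S.GoodPM (S.ht q.1) L.reverse (e :: q.1) then 1 else 0) * R q.2)) =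
    S.tp e y x * ∑ L ∈ S.LH y', S.wt L * R L := by
  rw [tp_eq, sum_mul]
  refine sum_congr rfl fun L _ => ?_
  rw [sum_product, mul_sum, sum_mul]
  refine sum_congr rfl fun L1 _ => ?_
  rw [mul_sum, mul_sum]
  refine sum_congr rfl fun L2 _ => ?_
  ring

/-- the recursion of the sums over the lists of a given height -/
theorem sum_RR (S : Sys (List Dir)) (g0 k0 : ℝ) (ℓ a0 n y : ℕ) :
    ∑ L ∈ S.LH y, S.wt L * RR S g0 k0 ℓ a0 (n + 1) L =
      ∑ L ∈ S.LH y, S.wt L * RR S g0 k0 ℓ a0 n L +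
      ∑ y' ∈ range (a0 + n + 2), (∑ g ∈ range (a0 + n + 1 - y' + 1), S.qq k0 ℓ g *
        S.tp [Dir.N] y (a0 + n + 1 - y' - g)) *
          ∑ L ∈ S.LH y', S.wt L * RR S g0 k0 ℓ a0 n L +
      S.u y * S.bad k0 ℓ (a0 + n + 1) * ∑ L ∈ S.LH 0, S.wt L * RR S g0 k0 ℓ a0 n L := by
  classical
  have h0 : ∑ L ∈ S.LH 0, S.wt L * RR S g0 k0 ℓ a0 n L = RR S g0 k0 ℓ a0 n [] := by
    rw [Sys.LH_zero, sum_singleton, Sys.wt_nil, one_mul]
  rw [h0]
  simp only [RR, mul_add, sum_add_distrib]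
  congr 1
  · congr 1
    have h1 : ∀ y' ∈ range (a0 + n + 2), (∑ g ∈ range (a0 + n + 1 - y' + 1), S.qq k0 ℓ g *
        S.tp [Dir.N] y (a0 + n + 1 - y' - g)) * ∑ L ∈ S.LH y', S.wt L * RR S g0 k0 ℓ a0 n L =
        ∑ g ∈ range (a0 + n + 1 - y' + 1), S.qq k0 ℓ g *
          ∑ L ∈ S.LH y, S.wt L * (∑ q ∈ S.LH (a0 + n + 1 - y' - g) ×ˢ S.LH y',
            S.wt q.1 * S.wt q.2 *
            ((if S.GoodPM (S.ht q.1) L.reverse ([Dir.N] :: q.1) then 1 else 0) *
              RR S g0 k0 ℓ a0 n q.2)) := by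
      intro y' _
      rw [sum_mul]
      refine sum_congr rfl fun g _ => ?_
      rw [block_eq, mul_assoc]
    rw [sum_congr rfl h1]
    simp only [mul_sum]
    rw [sum_comm]
    refine sum_congr rfl fun y' _ => ?_
    rw [sum_comm]
    refine sum_congr rfl fun g _ => ?_
    refine sum_congr rfl fun L _ => ?_
    refine sum_congr rfl fun q _ => ?_
    ring
  · rw [Sys.u, sum_mul, sum_mul]
    refine sum_congr rfl fun L _ => ?_
    ring

/-- monotonicity in the half-plane words -/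
theorem FF_le_gH {z : ℝ} (hz : 0 ≤ z) (M : ℕ) (b : List Dir) (a : ℕ) : FF z M b a ≤ gH z M a := by
  classical
  rw [FF, gH]
  exact sum_le_sum_of_subset_of_nonneg (filter_subset _ _) fun v _ _ => pow_nonneg hz _

theorem FF_nil (z : ℝ) (M a : ℕ) : FF z M [] a = gH z M a := by
  classical
  rw [FF, gH]
  congr 1
  apply filter_true_of_mem
  intro v hv
  rw [List.nil_append]
  exact (mem_wle.1 hv).2.1.1.flipY

theorem FF_nonneg {z : ℝ} (hz : 0 ≤ z) (M : ℕ) (b : List Dir) (a : ℕ) : 0 ≤ FF z M b a := by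
  classical
  rw [FF]
  exact sum_nonneg fun v _ => pow_nonneg hz _

theorem gH_nonneg {z : ℝ} (hz : 0 ≤ z) (M a : ℕ) : 0 ≤ gH z M a := by
  rw [gH]
  exact sum_nonneg fun v _ => pow_nonneg hz _

/-- the sum over the bridges is at most the sum over the lists -/
theorem sum_bridges_le (hF : StFac) {z : ℝ} {M : ℕ} (h0 : 0 ≤ z)
    (h1 : ∑ p ∈ wle Irr M, z ^ p.length ≤ 1) (h : ℕ) (ψ : List Dir → ℝ) (hψ : ∀ b, 0 ≤ ψ b) :
    ∑ b ∈ wle (BrH h) M, z ^ b.length * ψ b ≤
      ∑ B ∈ (sysB z M h0 h1).LH h, (sysB z M h0 h1).wt B * ψ B.flatten := by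
  classical
  have h2 := (hF z M h0 h1).1 h
  choose! c hc using h2
  have hinj : Set.InjOn c (wle (BrH h) M) := by
    intro b hb b' hb' hbb
    have e1 := (hc b hb).2.1
    have e2 := (hc b' hb').2.1
    rw [← e1, ← e2, hbb]
  calc ∑ b ∈ wle (BrH h) M, z ^ b.length * ψ b
      = ∑ b ∈ wle (BrH h) M, (sysB z M h0 h1).wt (c b) * ψ (c b).flatten := by
        refine sum_congr rfl fun b hb => ?_
        rw [(hc b hb).2.1, (hc b hb).2.2]
    _ = ∑ B ∈ (wle (BrH h) M).image c, (sysB z M h0 h1).wt B * ψ B.flatten := by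
        rw [sum_image hinj]
    _ ≤ _ := by
        refine sum_le_sum_of_subset_of_nonneg ?_ fun B _ _ =>
          mul_nonneg (Sys.wt_nonneg _ _) (hψ _)
        intro B hB
        obtain ⟨b, hb, rfl⟩ := mem_image.1 hB
        exact (hc b hb).1

/-- the main estimate -/
theorem FF_le_RR (hD : StDec) (hH : StHalf2) (hF : StFac) (hG : StGPM) {z : ℝ} {M : ℕ}
    (h0 : 0 ≤ z) (h1 : ∑ p ∈ wle Irr M, z ^ p.length ≤ 1) (a0 : ℕ) {k0 : ℝ} (hk : 0 < k0)
    (ℓ n : ℕ) : ∀ (b : List Dir) (L : List (List Dir)),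
      (∀ h' ≤ a0 + n, ∀ B' ∈ (sysB z M h0 h1).LH h', Sa (b ++ B'.flatten.map flipY) →
        ∀ L', L' <+: B' →
          (sysB z M h0 h1).GoodPM ((sysB z M h0 h1).ht L') L.reverse ([Dir.N] :: L')) →
      FF z M b (a0 + n) ≤ RR (sysB z M h0 h1) (gH z M a0) k0 ℓ a0 n L := by
  classical
  induction n with
  | zero =>
    intro b L _
    rw [RR]
    exact FF_le_gH h0 M b a0
  | succ n ih =>
    intro b L hbL
    have hR0 : ∀ m L, 0 ≤ RR (sysB z M h0 h1) (gH z M a0) k0 ℓ a0 m L := fun m L =>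
      RR_nonneg _ (gH_nonneg h0 M a0) hk ℓ a0 m L
    have e1 := hH z M (a0 + n) b h0
    have e2 : FF z M b (a0 + n) ≤ RR (sysB z M h0 h1) (gH z M a0) k0 ℓ a0 n L :=
      ih b L fun h' hh' => hbL h' (by omega)
    have e3 : ∑ b' ∈ (wle (BrH (a0 + n + 1)) M).filter (fun b' => Sa (b ++ b'.map flipY)),
        z ^ b'.length * FF z M b' (a0 + n) ≤
        ∑ B ∈ (sysB z M h0 h1).LH (a0 + n + 1), (sysB z M h0 h1).wt B *
          ((if Sa (b ++ B.flatten.map flipY) then 1 else 0) * FF z M B.flatten (a0 + n)) := by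
      refine le_trans (le_of_eq ?_) (sum_bridges_le hF h0 h1 (a0 + n + 1)
        (fun b' => (if Sa (b ++ b'.map flipY) then 1 else 0) * FF z M b' (a0 + n)) ?_)
      · rw [sum_filter]
        refine sum_congr rfl fun b' _ => ?_
        split_ifs <;> simp
      · intro b'
        refine mul_nonneg ?_ (FF_nonneg h0 M b' _)
        split_ifs <;> norm_num
    have e4 := hD (List Dir) (sysB z M h0 h1) k0 ℓ (a0 + n + 1)
      (fun B => (if Sa (b ++ B.flatten.map flipY) then 1 else 0) * FF z M B.flatten (a0 + n))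
      (fun L1 L2 => (if (sysB z M h0 h1).GoodPM ((sysB z M h0 h1).ht L1) L.reverse
        ([Dir.N] :: L1) then 1 else 0) * RR (sysB z M h0 h1) (gH z M a0) k0 ℓ a0 n L2) hk
      (fun B => by
        refine mul_nonneg ?_ (FF_nonneg h0 M _ _)
        split_ifs <;> norm_num)
      (fun L1 L2 => by
        refine mul_nonneg ?_ (hR0 n L2)
        split_ifs <;> norm_num)
      (by
        intro B' hB' L1 L2 hL1 hL2 _
        by_cases hS : Sa (b ++ B'.flatten.map flipY)
        · have g1 := hbL (a0 + n + 1) (by omega) B' hB' hS L1 hL1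
          simp only [if_pos hS, if_pos g1, one_mul]
          refine ih _ _ ?_
          intro h' hh' B'' hB'' hS'' L' hL'
          exact hG z M h0 h1 (a0 + n + 1) h' B' B'' hB' hB'' (by omega) hS'' L2 L' hL2 hL'
        · simp only [if_neg hS, zero_mul]
          refine mul_nonneg ?_ (hR0 n L2)
          split_ifs <;> norm_num)
    have e5 : (sysB z M h0 h1).bad k0 ℓ (a0 + n + 1) *
        ((if (sysB z M h0 h1).GoodPM ((sysB z M h0 h1).ht []) L.reverse
          ([Dir.N] :: []) then 1 else 0) * RR (sysB z M h0 h1) (gH z M a0) k0 ℓ a0 n []) ≤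
        (sysB z M h0 h1).bad k0 ℓ (a0 + n + 1) *
          RR (sysB z M h0 h1) (gH z M a0) k0 ℓ a0 n [] := by
      refine mul_le_mul_of_nonneg_left ?_ (Sys.bad_nonneg _ _ _ _)
      have := hR0 n []
      split_ifs <;> linarith
    rw [RR]
    have e6 : a0 + (n + 1) = a0 + n + 1 := rfl
    rw [e6]
    linarith

theorem rec' (hD : StDec) (hH : StHalf2) (hF : StFac) (hG : StGPM) : StRec := by
  intro z M h0 h1 a0 k0 ℓ hk
  have hg0 := gH_nonneg h0 M a0
  refine ⟨fun a y => ∑ L ∈ (sysB z M h0 h1).LH y, (sysB z M h0 h1).wt L *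
    RR (sysB z M h0 h1) (gH z M a0) k0 ℓ a0 (a - a0) L, ?_, ?_, ?_, ?_⟩
  · intro a y
    exact sum_nonneg fun L _ => mul_nonneg (Sys.wt_nonneg _ _) (RR_nonneg _ hg0 hk _ _ _ _)
  · intro y
    simp only [Nat.sub_self, RR]
    rw [← sum_mul, mul_comm]
    rfl
  · intro a y ha
    obtain ⟨n, rfl⟩ := Nat.exists_eq_add_of_le ha
    have e1 : a0 + n + 1 - a0 = n + 1 := by omega
    have e2 : a0 + n - a0 = n := by omega
    simp only [e1, e2]
    exact sum_RR _ _ _ _ _ _ _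
  · intro a ha
    obtain ⟨n, rfl⟩ := Nat.exists_eq_add_of_le ha
    have e2 : a0 + n - a0 = n := by omega
    simp only [e2]
    rw [Sys.LH_zero, sum_singleton, Sys.wt_nil, one_mul, ← FF_nil]
    refine FF_le_RR hD hH hF hG h0 h1 a0 hk ℓ n [] [] ?_
    intro h' _ B' _ _ L' _
    exact GoodPM_nil _ _ _

end Pool.Agent.Helper62.PT.Rec
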